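import Pool.Agent.Helper93.LCH.Stmts

/-!
Row AMB: from situations with a character which is nonzero on `L` to all situations
(MP_b555a2_al).
-/

namespace LCH97

open LCH Set

universe u v

variable {K : Type u} [Field K] {G : Type v} [Group G]

theorem cs_lt (s : Sit G) (H : Subgroup G) (hH : H ≤ s.M) (x : G) (hx : x ∈ s.M) {a b : G}
    (ha : a ∈ H) (hb : b ∈ H) : (s.cs H hH x hx).lt a b ↔ s.lt (a * x) (b * x) := by
  have e : (a * x)⁻¹ * (b * x) = x⁻¹ * (a⁻¹ * b) * x := by group
  unfold Sit.lt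
  rw [e]
  constructor
  · intro h
    exact h.2
  · intro h
    exact ⟨H.mul_mem (H.inv_mem ha) hb, h⟩

theorem lead_unique {s : Sit G} {v : G → K} {x y : G} (h1 : Lead s v x) (h2 : Lead s v y) :
    x = y := by
  rcases h1.2 y h2.1 with h | h
  · exact h.symm
  · rcases h2.2 x h1.1 with h' | h'
    · exact h'
    · exact absurd (s.lt_trans h h') (s.lt_irrefl x)

open Classical in
/-- The function with value one at `x` and zero elsewhere. -/
noncomputable def dl (K : Type u) [Field K] (s : Sit G) (x : G) (hx : x ∈ s.M) : s.V K :=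
  ⟨fun y => if y = x then 1 else 0, by
    have key : ∀ y, (if y = x then (1 : K) else 0) ≠ 0 → y = x := by
      intro y hy
      by_contra h
      rw [if_neg h] at hy
      exact hy rfl
    refine ⟨?_, ?_⟩
    · intro y hy
      rw [key y hy]
      exact hx
    · rintro A ⟨a, ha⟩ hA
      refine ⟨a, ha, ?_⟩
      intro y hy
      left
      rw [key y (hA y hy), key a (hA a ha)]⟩

theorem dl_self (s : Sit G) (x : G) (hx : x ∈ s.M) : (dl K s x hx).1 x = 1 := by
  unfold dl
  exact if_pos rfl

theorem dl_of_ne (s : Sit G) (x : G) (hx : x ∈ s.M) {y : G} (h : y ≠ x) :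
    (dl K s x hx).1 y = 0 := by
  unfold dl
  exact if_neg h

theorem dl_ne {s : Sit G} {x : G} {hx : x ∈ s.M} {y : G} (h : (dl K s x hx).1 y ≠ 0) :
    y = x := by
  by_contra h'
  exact h (dl_of_ne s x hx h')

theorem dl_lead (s : Sit G) (x : G) (hx : x ∈ s.M) : Lead s (dl K s x hx).1 x := by
  refine ⟨?_, ?_⟩
  · rw [dl_self]
    exact one_ne_zero
  · intro y hy
    exact Or.inl (dl_ne hy)

theorem rs_apply (s : Sit G) (H : Subgroup G) (hH : H ≤ s.M) (x : G) (hx : x ∈ s.M)
    (v : s.V K) {h : G} (hh : h ∈ H) : (s.rs H hH x hx v).1 h = v.1 (h * x) := by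
  change rsf H x v.1 h = _
  unfold rsf
  rw [if_pos hh]

theorem rs_off (s : Sit G) (H : Subgroup G) (hH : H ≤ s.M) (x : G) (hx : x ∈ s.M)
    (v : s.V K) {h : G} (hh : h ∉ H) : (s.rs H hH x hx v).1 h = 0 := by
  change rsf H x v.1 h = _
  unfold rsf
  rw [if_neg hh]

theorem rs_dl (s : Sit G) (H : Subgroup G) (hH : H ≤ s.M) (x : G) (hx : x ∈ s.M) {l : G}
    (hl : l ∈ H) (hl' : l ∈ (s.cs H hH x hx).M) (hlx : l * x ∈ s.M) :
    s.rs H hH x hx (dl K s (l * x) hlx) = dl K (s.cs H hH x hx) l hl' := by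
  ext h
  by_cases hh : h ∈ H
  · rw [rs_apply s H hH x hx _ hh]
    by_cases h1 : h = l
    · rw [h1, dl_self, dl_self]
    · rw [dl_of_ne _ _ _ h1, dl_of_ne _ _ _ (fun h2 => h1 (mul_right_cancel h2))]
  · rw [rs_off s H hH x hx _ hh, dl_of_ne]
    rintro rfl
    exact hh hl

theorem lead_rs (s : Sit G) (H : Subgroup G) (hH : H ≤ s.M) (x : G) (hx : x ∈ s.M)
    (v : s.V K) {l : G} (hl : l ∈ H) (h : Lead s v.1 (l * x)) :
    Lead (s.cs H hH x hx) (s.rs H hH x hx v).1 l := by
  refine ⟨?_, ?_⟩
  · rw [rs_apply s H hH x hx v hl]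
    exact h.1
  · intro y hy
    have hyH : y ∈ H := by
      by_contra h1
      exact hy (rs_off s H hH x hx v h1)
    rw [rs_apply s H hH x hx v hyH] at hy
    rcases h.2 _ hy with h1 | h1
    · exact Or.inl (mul_right_cancel h1)
    · exact Or.inr ((cs_lt s H hH x hx hl hyH).2 h1)

theorem lead_of_rs (s : Sit G) (H : Subgroup G) (hH : H ≤ s.M) (x : G) (hx : x ∈ s.M)
    (v : s.V K) {l : G} (h : Lead (s.cs H hH x hx) (s.rs H hH x hx v).1 l)
    (hs : ∀ y, v.1 y ≠ 0 → ∃ k ∈ H, y = k * x) : Lead s v.1 (l * x) := by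
  have hl : l ∈ H := by
    by_contra h1
    exact h.1 (rs_off s H hH x hx v h1)
  refine ⟨?_, ?_⟩
  · rw [← rs_apply s H hH x hx v hl]
    exact h.1
  · intro y hy
    obtain ⟨k, hk, rfl⟩ := hs y hy
    rw [← rs_apply s H hH x hx v hk] at hy
    rcases h.2 k hy with h1 | h1
    · left
      rw [h1]
    · right
      exact (cs_lt s H hH x hx hl hk).1 h1

theorem exists_lead (s : Sit G) (v : s.V K) {y : G} (hy : v.1 y ≠ 0) : ∃ x, Lead s v.1 x := by
  obtain ⟨x, hx, h⟩ := v.2.2 {x | v.1 x ≠ 0} ⟨y, hy⟩ (fun x hx => hx)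
  exact ⟨x, hx, fun z hz => h z hz⟩

/-- A character of a coset situation. -/
theorem exists_char (s : Sit G) (H : Subgroup G) (hH : H ≤ s.M) (x : G) (hx : x ∈ s.M)
    (hfg : H.FG) (hne : H ≠ ⊥) :
    ∃ f : G → ℝ, IsChar H f ∧ NZ H f ∧ ∀ g ∈ (s.cs H hH x hx).P, 0 ≤ f g := by
  obtain ⟨f, h1, h2, h3⟩ := (s.cs H hH x hx).con H hfg hne le_rfl
  exact ⟨f, h1, h2, fun g hg => h3 g hg.1 hg⟩

theorem char_one {H : Subgroup G} {f : G → ℝ} (h : IsChar H f) : f 1 = 0 := by
  have := h 1 H.one_mem 1 H.one_mem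
  rw [mul_one] at this
  linarith

theorem char_inv {H : Subgroup G} {f : G → ℝ} (h : IsChar H f) {g : G} (hg : g ∈ H) :
    f g⁻¹ = - f g := by
  have := h g hg g⁻¹ (H.inv_mem hg)
  rw [mul_inv_cancel, char_one h] at this
  linarith

theorem st_AMB (hT : ST_TRC.{u, v}) : ST_AMB.{u, v} := by
  intro K _ G _ L e hfg hne hsupp hadm
  refine ⟨?_, ?_⟩
  · intro hA s hL
    ext v x
    change (e.ev s v).1 x = 0
    by_contra hx0
    have hx : x ∈ s.M := (e.ev s v).2.1 x hx0
    obtain ⟨f, f1, f2, f3⟩ := exists_char s L hL x hx hfg hne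
    have h1 : e.ev (s.cs L hL x hx) = 0 := hA f f1 f2 (s.cs L hL x hx) f
      ⟨le_rfl, f1, f3, fun _ _ => rfl⟩
    have h2 := hT K G s L hL x hx e hadm hsupp v
    rw [h1] at h2
    have h3 := rs_apply s L hL x hx (e.ev s v) L.one_mem
    rw [h2, one_mul] at h3
    exact hx0 h3.symm
  · intro hB s hL
    have hVC : ∀ x (hx : x ∈ s.M), ∃ φ : G → G,
        VCw (s.cs L hL x hx) (e.ev (s.cs L hL x hx)) φ := by
      intro x hx
      obtain ⟨f, f1, f2, f3⟩ := exists_char s L hL x hx hfg hne
      exact hB f f1 f2 (s.cs L hL x hx) f ⟨le_rfl, f1, f3, fun _ _ => rfl⟩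
    choose Φ hΦ using hVC
    classical
    set φ : G → G := fun x => if hx : x ∈ s.M then Φ x hx 1 * x else 1 with hφ
    have hφe : ∀ x (hx : x ∈ s.M), φ x = Φ x hx 1 * x := by
      intro x hx
      simp only [hφ]
      rw [dif_pos hx]
    have hsup : ∀ z (hz : z ∈ s.M) (y : G), (e.ev s (dl K s z hz)).1 y ≠ 0 →
        ∃ k ∈ L, y = k * z := by
      intro z hz y hy
      have hyM : y ∈ s.M := (e.ev s (dl K s z hz)).2.1 y hy
      by_contra hcon
      have h1 := hT K G s L hL y hyM e hadm hsupp (dl K s z hz)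
      have h2 : s.rs L hL y hyM (dl K s z hz) = 0 := by
        ext h
        change (s.rs L hL y hyM (dl K s z hz)).1 h = 0
        by_cases hh : h ∈ L
        · rw [rs_apply s L hL y hyM _ hh]
          by_contra h3
          have h4 := dl_ne h3
          apply hcon
          refine ⟨h⁻¹, L.inv_mem hh, ?_⟩
          rw [← h4, inv_mul_cancel_left]
        · exact rs_off s L hL y hyM _ hh
      rw [h2, map_zero] at h1
      have h3 := rs_apply s L hL y hyM (e.ev s (dl K s z hz)) L.one_mem
      rw [h1, one_mul] at h3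
      exact hy h3.symm
    have hgen : ∀ (H : Subgroup G) (hH : H ≤ s.M), L ≤ H → ∀ x (hx : x ∈ s.M) (ψ : G → G),
        VCw (s.cs H hH x hx) (e.ev (s.cs H hH x hx)) ψ → ∀ h (hh : h ∈ H) (hhx : h * x ∈ s.M),
        Lead s (e.ev s (dl K s (h * x) hhx)).1 (ψ h * x) := by
      intro H hH hLH x hx ψ hψ h hh hhx
      have h1 := hT K G s H hH x hx e hadm (fun g hg => hLH (hsupp g hg)) (dl K s (h * x) hhx)
      rw [rs_dl s H hH x hx hh hh hhx] at h1
      have h2 := hψ.2.2.2 _ _ (dl_lead (K := K) (s.cs H hH x hx) h hh)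
      rw [← h1] at h2
      refine lead_of_rs s H hH x hx _ h2 ?_
      intro y hy
      obtain ⟨k, hk, rfl⟩ := hsup _ hhx y hy
      exact ⟨k * h, H.mul_mem (hLH hk) hh, by rw [mul_assoc]⟩
    have hlead : ∀ z (hz : z ∈ s.M), Lead s (e.ev s (dl K s z hz)).1 (φ z) := by
      intro z hz
      have hz' : (1 : G) * z ∈ s.M := by rw [one_mul]; exact hz
      have h1 := hgen L hL le_rfl z hz (Φ z hz) (hΦ z hz) 1 L.one_mem hz'
      rw [hφe z hz]
      have e1 : dl K s (1 * z) hz' = dl K s z hz := by
        have : ∀ w (hw : w ∈ s.M), w = z → dl K s w hw = dl K s z hz := by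
          intro w hw h
          subst h
          rfl
        exact this _ _ (one_mul z)
      rw [e1] at h1
      exact h1
    have hkey : ∀ (H : Subgroup G) (hH : H ≤ s.M), L ≤ H → ∀ x (hx : x ∈ s.M) (ψ : G → G),
        VCw (s.cs H hH x hx) (e.ev (s.cs H hH x hx)) ψ → ∀ h, h ∈ H → φ (h * x) = ψ h * x := by
      intro H hH hLH x hx ψ hψ h hh
      have hhx : h * x ∈ s.M := s.M.mul_mem (hH hh) hx
      exact lead_unique (hlead _ hhx) (hgen H hH hLH x hx ψ hψ h hh hhx)
    have hΦL : ∀ x (hx : x ∈ s.M) l, l ∈ L → Φ x hx l ∈ L := fun x hx l hl => (hΦ x hx).1 l hl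
    have hφM : ∀ x ∈ s.M, φ x ∈ s.M := by
      intro x hx
      rw [hφe x hx]
      exact s.M.mul_mem (hL (hΦL x hx 1 L.one_mem)) hx
    have hmono : ∀ x ∈ s.M, ∀ y ∈ s.M, s.lt x y → s.lt (φ x) (φ y) := by
      intro x hx y hy hxy
      set z : G := y * x⁻¹ with hz
      have hzM : z ∈ s.M := s.M.mul_mem hy (s.M.inv_mem hx)
      have hzx : z * x = y := by rw [hz, inv_mul_cancel_right]
      set H : Subgroup G := L ⊔ Subgroup.closure {z} with hHdef
      have hLH : L ≤ H := le_sup_left
      have hzH : z ∈ H := (le_sup_right : Subgroup.closure {z} ≤ H)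
        (Subgroup.subset_closure rfl)
      have hH : H ≤ s.M := by
        refine sup_le hL ?_
        rw [Subgroup.closure_le]
        intro w hw
        rw [hw]
        exact hzM
      have hHfg : H.FG := hfg.sup ⟨{z}, by simp⟩
      have hHne : H ≠ ⊥ := by
        intro h
        apply hne
        rw [eq_bot_iff, ← h]
        exact hLH
      obtain ⟨f, f1, f2, f3⟩ := exists_char s H hH x hx hHfg hHne
      have f1L : IsChar L f := fun g hg h hh => f1 g (hLH hg) h (hLH hh)
      have hz1 : (s.cs H hH x hx).lt 1 z := by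
        rw [cs_lt s H hH x hx H.one_mem hzH, one_mul, hzx]
        exact hxy
      by_cases hfL : NZ L f
      · obtain ⟨ψ, hψ⟩ := hB f f1L hfL (s.cs H hH x hx) f ⟨hLH, f1, f3, fun _ _ => rfl⟩
        have h1 := hkey H hH hLH x hx ψ hψ 1 H.one_mem
        have h2 := hkey H hH hLH x hx ψ hψ z hzH
        rw [one_mul] at h1
        rw [hzx] at h2
        rw [h1, h2, ← cs_lt s H hH x hx (hψ.1 1 H.one_mem) (hψ.1 z hzH)]
        exact hψ.2.2.1 1 H.one_mem z hzH hz1
      · have hf0 : ∀ g ∈ L, f g = 0 := by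
          intro g hg
          by_contra h
          exact hfL ⟨g, hg, h⟩
        have hzP : z ∈ (s.cs H hH x hx).P := by
          have h1 : (1 : G)⁻¹ * z ∈ (s.cs H hH x hx).P := hz1
          rw [inv_one, one_mul] at h1
          exact h1
        have hfz : f z ≠ 0 := by
          intro hfz
          obtain ⟨g, hg, hgne⟩ := f2
          let N : Subgroup G :=
            { carrier := {g | g ∈ H ∧ f g = 0}
              mul_mem' := by
                rintro a b ⟨ha, ha'⟩ ⟨hb, hb'⟩
                refine ⟨H.mul_mem ha hb, ?_⟩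
                rw [f1 a ha b hb, ha', hb', add_zero]
              one_mem' := ⟨H.one_mem, char_one f1⟩
              inv_mem' := by
                rintro a ⟨ha, ha'⟩
                refine ⟨H.inv_mem ha, ?_⟩
                rw [char_inv f1 ha, ha', neg_zero] }
          have hN : H ≤ N := by
            refine sup_le (fun g hg => ⟨hLH hg, hf0 g hg⟩) ?_
            rw [Subgroup.closure_le]
            intro w hw
            rw [hw]
            exact ⟨hzH, hfz⟩
          exact hgne (hN hg).2
        have hfz' : 0 < f z := lt_of_le_of_ne (f3 z hzP) (Ne.symm hfz)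
        rw [hφe x hx, hφe y hy]
        have ha := hΦL x hx 1 L.one_mem
        have hb := hΦL y hy 1 L.one_mem
        set a := Φ x hx 1
        set b := Φ y hy 1
        have hbz : b * z ∈ H := H.mul_mem (hLH hb) hzH
        have hby : b * y = b * z * x := by rw [mul_assoc, hzx]
        have fbz : f (b * z) = f z := by rw [f1 b (hLH hb) z hzH, hf0 b hb, zero_add]
        rw [hby, ← cs_lt s H hH x hx (hLH ha) hbz]
        rcases (s.cs H hH x hx).lt_tot (hLH ha : a ∈ (s.cs H hH x hx).M)
          (hbz : b * z ∈ (s.cs H hH x hx).M) with h | h | h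
        · exfalso
          rw [← h, hf0 a ha] at fbz
          linarith
        · exact h
        · exfalso
          have h1 : (b * z)⁻¹ * a ∈ (s.cs H hH x hx).P := h
          have h2 := f3 _ h1
          rw [f1 _ (H.inv_mem hbz) a (hLH ha), char_inv f1 hbz, fbz, hf0 a ha] at h2
          linarith
    refine ⟨φ, hφM, ?_, hmono, ?_⟩
    · intro y hy
      obtain ⟨l, hl, hl1⟩ := (hΦ y hy).2.1 1 L.one_mem
      refine ⟨l * y, s.M.mul_mem (hL hl) hy, ?_⟩
      rw [hkey L hL le_rfl y hy (Φ y hy) (hΦ y hy) l hl, hl1, one_mul]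
    · intro v x hv
      have hx : x ∈ s.M := v.2.1 x hv.1
      refine ⟨?_, ?_⟩
      · have h1 : Lead (s.cs L hL x hx) (s.rs L hL x hx v).1 1 := by
          apply lead_rs s L hL x hx v L.one_mem
          rw [one_mul]
          exact hv
        have h2 := ((hΦ x hx).2.2.2 _ _ h1).1
        rw [← hT K G s L hL x hx e hadm hsupp v,
          rs_apply s L hL x hx _ (hΦL x hx 1 L.one_mem)] at h2
        rw [hφe x hx]
        exact h2
      · intro y hy0
        have hy : y ∈ s.M := (e.ev s v).2.1 y hy0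
        have h1 := hT K G s L hL y hy e hadm hsupp v
        have h2 := rs_apply s L hL y hy (e.ev s v) L.one_mem
        rw [one_mul, h1] at h2
        have h3 : (e.ev (s.cs L hL y hy) (s.rs L hL y hy v)).1 1 ≠ 0 := by
          rw [h2]
          exact hy0
        have h4 : ∃ w, (s.rs L hL y hy v).1 w ≠ 0 := by
          by_contra hcon
          push Not at hcon
          have h5 : s.rs L hL y hy v = 0 := by
            ext w
            exact hcon w
          rw [h5, map_zero] at h3
          exact h3 rfl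
        obtain ⟨w, hw⟩ := h4
        obtain ⟨l, hl⟩ := exists_lead _ _ hw
        have hlL : l ∈ L := by
          by_contra h5
          exact hl.1 (rs_off s L hL y hy v h5)
        have h6 := ((hΦ y hy).2.2.2 _ _ hl).2 1 h3
        have h7 := hkey L hL le_rfl y hy (Φ y hy) (hΦ y hy) l hlL
        have hlM : l * y ∈ s.M := s.M.mul_mem (hL hlL) hy
        have h8 : y = φ (l * y) ∨ s.lt (φ (l * y)) y := by
          rcases h6 with h | h
          · left
            rw [h7, ← h, one_mul]
          · right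
            rw [cs_lt s L hL y hy (hΦL y hy l hlL) L.one_mem, one_mul] at h
            rw [h7]
            exact h
        have h9 : v.1 (l * y) ≠ 0 := by
          rw [← rs_apply s L hL y hy v hlL]
          exact hl.1
        have h10 : φ (l * y) = φ x ∨ s.lt (φ x) (φ (l * y)) := by
          rcases hv.2 _ h9 with h | h
          · left
            rw [h]
          · right
            exact hmono x hx _ hlM h
        rcases h8 with h | h
        · rw [h]
          exact h10
        · rcases h10 with h' | h'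
          · right
            rw [← h']
            exact h
          · right
            exact s.lt_trans h' h

end LCH97
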