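import Pool.Agent.Helper93.LCH.Stmts

/-!
Row GLB: a locally constant alternative on the nonzero characters of a group of rank different
from one is constant (MP_b555a2_al).
-/

namespace LCH97

open LCH Set

universe v

variable {G : Type v} [Group G]

/-- Extension by zero of an integer homomorphism to a real function. -/
noncomputable def ext (L : Subgroup G) (φ : L →* Multiplicative ℤ) (g : G) : ℝ :=
  open scoped Classical in
  if h : g ∈ L then ((Multiplicative.toAdd (φ ⟨g, h⟩) : ℤ) : ℝ) else 0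

theorem ext_of_mem {L : Subgroup G} (φ : L →* Multiplicative ℤ) {g : G} (h : g ∈ L) :
    ext L φ g = ((Multiplicative.toAdd (φ ⟨g, h⟩) : ℤ) : ℝ) := by
  unfold ext
  rw [dif_pos h]

theorem ext_char {L : Subgroup G} (φ : L →* Multiplicative ℤ) : IsChar L (ext L φ) := by
  intro g hg h hh
  rw [ext_of_mem φ hg, ext_of_mem φ hh, ext_of_mem φ (L.mul_mem hg hh)]
  have e : (⟨g * h, L.mul_mem hg hh⟩ : L) = ⟨g, hg⟩ * ⟨h, hh⟩ := rfl
  rw [e, map_mul, toAdd_mul, Int.cast_add]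

theorem ext_indep {L : Subgroup G} {φ ψ : L →* Multiplicative ℤ}
    (h : ∀ m n : ℤ, (m ≠ 0 ∨ n ≠ 0) → φ ^ m * ψ ^ n ≠ 1) {α β : ℝ}
    (hab : ∀ g ∈ L, α * ext L φ g + β * ext L ψ g = 0) : α = 0 ∧ β = 0 := by
  have hb : ∃ x ∈ L, ext L ψ x ≠ 0 := by
    by_contra hcon
    push Not at hcon
    refine h 0 1 (Or.inr one_ne_zero) ?_
    rw [zpow_zero, zpow_one, one_mul]
    ext x
    have h1 := hcon x.1 x.2
    rw [ext_of_mem ψ x.2] at h1
    have h2 : Multiplicative.toAdd (ψ x) = 0 := by exact_mod_cast h1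
    rw [MonoidHom.one_apply]
    exact toAdd_eq_zero.1 h2
  obtain ⟨x0, hx0, hbx⟩ := hb
  have hα : α = 0 := by
    by_contra hα
    have key : ∀ x ∈ L, ext L φ x * ext L ψ x0 = ext L φ x0 * ext L ψ x := by
      intro x hx
      have h1 := hab x hx
      have h2 := hab x0 hx0
      have h3 : α * (ext L φ x * ext L ψ x0 - ext L φ x0 * ext L ψ x) = 0 := by
        linear_combination ext L ψ x0 * h1 - ext L ψ x * h2
      rcases mul_eq_zero.1 h3 with h4 | h4
      · exact absurd h4 hα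
      · linarith
    rw [ext_of_mem ψ hx0] at hbx
    have hn : Multiplicative.toAdd (ψ ⟨x0, hx0⟩) ≠ 0 := by
      intro h5
      rw [h5] at hbx
      simp at hbx
    refine h (Multiplicative.toAdd (ψ ⟨x0, hx0⟩)) (-Multiplicative.toAdd (φ ⟨x0, hx0⟩))
      (Or.inl hn) ?_
    ext x
    have h1 := key x.1 x.2
    rw [ext_of_mem φ x.2, ext_of_mem ψ x.2, ext_of_mem ψ hx0, ext_of_mem φ hx0] at h1
    have h2 : Multiplicative.toAdd (φ x) * Multiplicative.toAdd (ψ ⟨x0, hx0⟩) =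
        Multiplicative.toAdd (φ ⟨x0, hx0⟩) * Multiplicative.toAdd (ψ x) := by exact_mod_cast h1
    rw [MonoidHom.mul_apply, MonoidHom.one_apply]
    apply Multiplicative.toAdd.injective
    rw [toAdd_mul, toAdd_one]
    have h3 : (φ ^ (Multiplicative.toAdd (ψ ⟨x0, hx0⟩))) x =
        (φ x) ^ (Multiplicative.toAdd (ψ ⟨x0, hx0⟩)) := rfl
    have h4 : (ψ ^ (-Multiplicative.toAdd (φ ⟨x0, hx0⟩))) x =
        (ψ x) ^ (-Multiplicative.toAdd (φ ⟨x0, hx0⟩)) := rfl
    rw [h3, h4, toAdd_zpow, toAdd_zpow, smul_eq_mul, smul_eq_mul]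
    change Multiplicative.toAdd (ψ ⟨x0, hx0⟩) * Multiplicative.toAdd (φ x) +
      -Multiplicative.toAdd (φ ⟨x0, hx0⟩) * Multiplicative.toAdd (ψ x) = (0 : ℤ)
    linarith
  refine ⟨hα, ?_⟩
  have h2 := hab x0 hx0
  rw [hα, zero_mul, zero_add] at h2
  exact (mul_eq_zero.1 h2).resolve_right hbx

/-- Linear dependence on `L`. -/
def Dep (L : Subgroup G) (χ ψ : G → ℝ) : Prop := ∃ c : ℝ, ∀ g ∈ L, χ g = c * ψ g

theorem char_comb {L : Subgroup G} {χ ψ : G → ℝ} (h1 : IsChar L χ) (h2 : IsChar L ψ) (a b : ℝ) :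
    IsChar L (fun g => a * χ g + b * ψ g) := by
  intro g hg h hh
  change a * χ (g * h) + b * ψ (g * h) = a * χ g + b * ψ g + (a * χ h + b * ψ h)
  rw [h1 g hg h hh, h2 g hg h hh]
  ring

/-- Along a segment without zeros the alternative does not change. -/
theorem segment {L : Subgroup G} {A B : (G → ℝ) → Prop}
    (hloc : ∀ χ ψ : G → ℝ, IsChar L χ → IsChar L ψ → NZ L χ → ∃ ε : ℝ, 0 < ε ∧
      ((∀ t : ℝ, |t| < ε → A (fun g => χ g + t * ψ g)) ∨
       (∀ t : ℝ, |t| < ε → B (fun g => χ g + t * ψ g))))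
    (hex : ∀ χ : G → ℝ, IsChar L χ → NZ L χ → ¬ (A χ ∧ B χ))
    {χ0 χ1 : G → ℝ} (h0 : IsChar L χ0) (h1 : IsChar L χ1)
    (hnz : ∀ t ∈ Icc (0 : ℝ) 1, NZ L (fun g => (1 - t) * χ0 g + t * χ1 g)) :
    (A χ0 ∧ A χ1) ∨ (B χ0 ∧ B χ1) := by
  set F : ℝ → G → ℝ := fun t g => (1 - t) * χ0 g + t * χ1 g with hF
  have hch : ∀ t, IsChar L (F t) := fun t => char_comb h0 h1 (1 - t) t
  have hd : IsChar L (fun g => -1 * χ0 g + 1 * χ1 g) := char_comb h0 h1 (-1) 1
  set U : Set ℝ := interior {t | A (F t)} with hU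
  set V : Set ℝ := interior {t | B (F t)} with hV
  have hcov : Icc (0 : ℝ) 1 ⊆ U ∪ V := by
    intro t0 ht0
    obtain ⟨ε, hε, h⟩ := hloc (F t0) _ (hch t0) hd (hnz t0 ht0)
    have e : ∀ s : ℝ, (fun g => F t0 g + (s - t0) * (-1 * χ0 g + 1 * χ1 g)) = F s := by
      intro s
      funext g
      simp only [hF]
      ring
    rcases h with h | h
    · left
      rw [hU, mem_interior_iff_mem_nhds, Metric.mem_nhds_iff]
      refine ⟨ε, hε, ?_⟩
      intro s hs
      have hs' : |s - t0| < ε := by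
        rw [Metric.mem_ball, Real.dist_eq] at hs
        exact hs
      have := h (s - t0) hs'
      rw [e s] at this
      exact this
    · right
      rw [hV, mem_interior_iff_mem_nhds, Metric.mem_nhds_iff]
      refine ⟨ε, hε, ?_⟩
      intro s hs
      have hs' : |s - t0| < ε := by
        rw [Metric.mem_ball, Real.dist_eq] at hs
        exact hs
      have := h (s - t0) hs'
      rw [e s] at this
      exact this
  have z0 : F 0 = χ0 := by
    funext g
    simp only [hF]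
    ring
  have z1 : F 1 = χ1 := by
    funext g
    simp only [hF]
    ring
  have m0 : (0 : ℝ) ∈ Icc (0 : ℝ) 1 := ⟨le_rfl, zero_le_one⟩
  have m1 : (1 : ℝ) ∈ Icc (0 : ℝ) 1 := ⟨zero_le_one, le_rfl⟩
  have hAU : ∀ t ∈ U, A (F t) := by
    intro t ht
    have h3 : t ∈ {t | A (F t)} := interior_subset ht
    exact h3
  have hBV : ∀ t ∈ V, B (F t) := by
    intro t ht
    have h3 : t ∈ {t | B (F t)} := interior_subset ht
    exact h3
  by_cases hu : (Icc (0 : ℝ) 1 ∩ U).Nonempty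
  · by_cases hv : (Icc (0 : ℝ) 1 ∩ V).Nonempty
    · obtain ⟨t, ht, htU, htV⟩ :=
        isPreconnected_Icc U V isOpen_interior isOpen_interior hcov hu hv
      exact absurd ⟨hAU t htU, hBV t htV⟩ (hex (F t) (hch t) (hnz t ht))
    · left
      have h2 : ∀ t ∈ Icc (0 : ℝ) 1, A (F t) := by
        intro t ht
        rcases hcov ht with h | h
        · exact hAU t h
        · exact absurd ⟨t, ht, h⟩ hv
      exact ⟨z0 ▸ h2 0 m0, z1 ▸ h2 1 m1⟩
  · right
    have h2 : ∀ t ∈ Icc (0 : ℝ) 1, B (F t) := by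
      intro t ht
      rcases hcov ht with h | h
      · exact absurd ⟨t, ht, h⟩ hu
      · exact hBV t h
    exact ⟨z0 ▸ h2 0 m0, z1 ▸ h2 1 m1⟩

/-- A segment from a nonzero character to one which is not a multiple of it has no zero. -/
theorem seg_nz {L : Subgroup G} {χ0 χ2 : G → ℝ} (h0 : NZ L χ0) (h2 : ¬ Dep L χ2 χ0) :
    ∀ t ∈ Icc (0 : ℝ) 1, NZ L (fun g => (1 - t) * χ0 g + t * χ2 g) := by
  intro t _
  by_contra hcon
  have h3 : ∀ g ∈ L, (1 - t) * χ0 g + t * χ2 g = 0 := by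
    intro g hg
    by_contra h4
    exact hcon ⟨g, hg, h4⟩
  by_cases ht : t = 0
  · obtain ⟨g, hg, hne⟩ := h0
    have h4 := h3 g hg
    rw [ht] at h4
    apply hne
    linarith
  · apply h2
    refine ⟨-((1 - t) / t), ?_⟩
    intro g hg
    have h4 := h3 g hg
    field_simp
    linarith

theorem dep_two {L : Subgroup G} {φ ψ : L →* Multiplicative ℤ}
    (h : ∀ m n : ℤ, (m ≠ 0 ∨ n ≠ 0) → φ ^ m * ψ ^ n ≠ 1) {χ : G → ℝ}
    (h1 : Dep L (ext L φ) χ) (h2 : Dep L (ext L ψ) χ) : False := by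
  obtain ⟨c, hc⟩ := h1
  obtain ⟨d, hd⟩ := h2
  have h3 : ∀ g ∈ L, (-d) * ext L φ g + c * ext L ψ g = 0 := by
    intro g hg
    rw [hc g hg, hd g hg]
    ring
  obtain ⟨h4, h5⟩ := ext_indep h h3
  have h6 : ∀ g ∈ L, (1 : ℝ) * ext L φ g + 0 * ext L ψ g = 0 := by
    intro g hg
    rw [hc g hg, h5]
    ring
  exact one_ne_zero (ext_indep h h6).1

theorem st_GLB : ST_GLB.{v} := by
  intro G _ L A B hrk hloc hex
  have hrk' : ∃ φ ψ : L →* Multiplicative ℤ, ∀ m n : ℤ, (m ≠ 0 ∨ n ≠ 0) → φ ^ m * ψ ^ n ≠ 1 := by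
    unfold Rk1 at hrk
    push Not at hrk
    exact hrk
  obtain ⟨φ, ψ, hφψ⟩ := hrk'
  by_contra hcon
  rw [not_or] at hcon
  obtain ⟨hA, hB⟩ := hcon
  push Not at hA hB
  obtain ⟨χ0, hc0, hn0, hA0⟩ := hA
  obtain ⟨χ1, hc1, hn1, hB1⟩ := hB
  have hsum : ∀ g, 1 * ext L φ g + 1 * ext L ψ g = ext L φ g + ext L ψ g := fun g => by ring
  have dA : ∀ χ : G → ℝ, Dep L (fun g => 1 * ext L φ g + 1 * ext L ψ g) χ →
      Dep L (ext L φ) χ → False := by
    intro χ h1 h2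
    obtain ⟨c, hc⟩ := h1
    obtain ⟨d, hd⟩ := h2
    refine dep_two hφψ ⟨d, hd⟩ ⟨c - d, ?_⟩
    intro g hg
    have h3 := hc g hg
    have h4 := hd g hg
    simp only at h3
    linarith
  have dB : ∀ χ : G → ℝ, Dep L (fun g => 1 * ext L φ g + 1 * ext L ψ g) χ →
      Dep L (ext L ψ) χ → False := by
    intro χ h1 h2
    obtain ⟨c, hc⟩ := h1
    obtain ⟨d, hd⟩ := h2
    refine dep_two hφψ ⟨c - d, ?_⟩ ⟨d, hd⟩
    intro g hg
    have h3 := hc g hg
    have h4 := hd g hg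
    simp only at h3
    linarith
  have hex2 : ∃ χ2 : G → ℝ, IsChar L χ2 ∧ ¬ Dep L χ2 χ0 ∧ ¬ Dep L χ2 χ1 := by
    by_contra h
    push Not at h
    have ha := h (ext L φ) (ext_char φ)
    have hb := h (ext L ψ) (ext_char ψ)
    have hab := h _ (char_comb (ext_char φ) (ext_char ψ) 1 1)
    by_cases p1 : Dep L (ext L φ) χ0
    · have p2 : Dep L (ext L ψ) χ1 := hb fun p => dep_two hφψ p1 p
      have p3 := hab fun p => dA χ0 p p1
      exact dB χ1 p3 p2
    · have p2 := ha p1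
      by_cases p3 : Dep L (ext L ψ) χ0
      · have p4 := hab fun p => dB χ0 p p3
        exact dA χ1 p4 p2
      · exact dep_two hφψ p2 (hb p3)
  obtain ⟨χ2, hc2, hd0, hd1⟩ := hex2
  have hn2 : NZ L χ2 := by
    by_contra h
    apply hd0
    refine ⟨0, ?_⟩
    intro g hg
    rw [zero_mul]
    by_contra h4
    exact h ⟨g, hg, h4⟩
  have hb2 : B χ2 := by
    rcases segment hloc hex hc0 hc2 (seg_nz hn0 hd0) with h | h
    · exact absurd h.1 hA0
    · exact h.2
  have ha2 : A χ2 := by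
    rcases segment hloc hex hc1 hc2 (seg_nz hn1 hd1) with h | h
    · exact h.2
    · exact absurd h.1 hB1
  exact hex χ2 hc2 hn2 ⟨ha2, hb2⟩

end LCH97
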