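import Pool.Agent.Helper97.LCH.AMB

/-!
Rows ONE, LFC and TRC (MP_b555a2_al).
-/

namespace LCH97

open LCH Set

universe u v

variable {K : Type u} [Field K] {G : Type v} [Group G]

theorem le_of_slt {s : Sit G} {f : G → ℝ} (hf : IsChar s.M f) (hp : ∀ g ∈ s.P, 0 ≤ f g)
    {x y : G} (hx : x ∈ s.M) (hy : y ∈ s.M) (h : s.lt x y) : f x ≤ f y := by
  have h1 := hp _ h
  rw [hf _ (s.M.inv_mem hx) y hy, char_inv hf hx] at h1
  linarith

theorem vcw_one {s : Sit G} {f : G → ℝ} (hf : IsChar s.M f) (hp : ∀ g ∈ s.P, 0 ≤ f g) {δ : ℝ}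
    {η : Module.End K (s.V K)} (hδ : 0 < δ) (hη : Fil s f δ η) : VCw s (1 + η) id := by
  refine ⟨fun x hx => hx, fun y hy => ⟨y, hy, rfl⟩, fun x _ y _ h => h, ?_⟩
  intro v x hv
  have hx : x ∈ s.M := v.2.1 x hv.1
  have h1 : ∀ y, v.1 y ≠ 0 → f x ≤ f y := by
    intro y hy
    rcases hv.2 y hy with h | h
    · rw [h]
    · exact le_of_slt hf hp hx (v.2.1 y hy) h
  have h2 : ∀ y, (η v).1 y ≠ 0 → f x + δ ≤ f y := hη (f x) v h1
  have h3 : (η v).1 x = 0 := by
    by_contra h
    have := h2 x h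
    linarith
  have e : ∀ y, ((1 + η) v).1 y = v.1 y + (η v).1 y := fun y => rfl
  refine ⟨?_, ?_⟩
  · change ((1 + η) v).1 x ≠ 0
    rw [e, h3, add_zero]
    exact hv.1
  · intro y hy
    change y = x ∨ s.lt x y
    by_cases hvy : v.1 y = 0
    · have hηy : (η v).1 y ≠ 0 := by
        intro h
        apply hy
        rw [e, hvy, h, add_zero]
      have hyM : y ∈ s.M := (η v).2.1 y hηy
      have h4 := h2 y hηy
      rcases s.lt_tot hx hyM with h | h | h
      · left
        exact h.symm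
      · right
        exact h
      · have := le_of_slt hf hp hyM hx h
        linarith
    · exact hv.2 y hvy

theorem st_ONE (hS : ST_SPH.{u, v}) : ST_ONE.{u, v} := by
  intro K _ G _ s f hf hp δ η hδ hη
  have h1 := vcw_one hf hp hδ hη
  refine ⟨⟨id, h1⟩, ?_⟩
  intro a v hv x hx
  have hu : IsUnit (1 + η) := hS K G s _ ⟨id, h1⟩
  set w := Ring.inverse (1 + η) v with hw
  have hvw : (1 + η) w = v := by
    have h2 := Ring.mul_inverse_cancel (1 + η) hu
    rw [hw, ← Module.End.mul_apply, h2, Module.End.one_apply]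
  obtain ⟨z, hz⟩ := exists_lead s w hx
  have h3 := h1.2.2.2 w z hz
  rw [hvw] at h3
  have h4 : a ≤ f z := hv z h3.1
  have h5 : f z ≤ f x := by
    rcases hz.2 x hx with h | h
    · rw [h]
    · exact le_of_slt hf hp (w.2.1 z hz.1) (w.2.1 x hx) h
  linarith

theorem vc_mul {s : Sit G} {S T : Module.End K (s.V K)} (hS : VC s S) (hT : VC s T) :
    VC s (S * T) := by
  obtain ⟨φ, a1, a2, a3, a4⟩ := hS
  obtain ⟨ψ, b1, b2, b3, b4⟩ := hT
  refine ⟨fun x => φ (ψ x), fun x hx => a1 _ (b1 x hx), ?_, ?_, ?_⟩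
  · intro y hy
    obtain ⟨z, hz, rfl⟩ := a2 y hy
    obtain ⟨x, hx, rfl⟩ := b2 z hz
    exact ⟨x, hx, rfl⟩
  · intro x hx y hy h
    exact a3 _ (b1 x hx) _ (b1 y hy) (b3 x hx y hy h)
  · intro v x hx
    exact a4 _ _ (b4 v x hx)

theorem st_LFC (hS : ST_SPH.{u, v}) (hO : ST_ONE.{u, v}) : ST_LFC.{u, v} := by
  intro K _ G _ e L χ ψ h
  rcases h with h | h
  · exact Or.inl h
  · right
    obtain ⟨ε, δ, hε, hδ, r, f, hf, hr, hN, hB, hi⟩ := h
    have hr' : (Ex.inv f).Hom χ (-r) := by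
      change f.Hom χ (- -r)
      rw [neg_neg]
      exact hr
    obtain ⟨C, hC⟩ := hB (-r) hr'
    refine ⟨ε, -r, C, hε, ?_⟩
    intro i hit
    obtain ⟨hL, hch, hpos, hagree⟩ := i.at'
    have hVf : VC i.s (f.ev i.s) := hN i.s fun g hg => hL (hf g hg)
    have huf : IsUnit (f.ev i.s) := hS K G i.s _ hVf
    obtain ⟨h1, h2⟩ := hO K G i.s i.f hch hpos δ _ hδ (hi i hit)
    have e1 : (1 : Module.End K (i.s.V K)) + ((Ex.inv f).ev i.s * e.ev i.s - 1) =
        (Ex.inv f).ev i.s * e.ev i.s := by abel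
    rw [e1] at h1 h2
    have e2 : (Ex.inv f).ev i.s = Ring.inverse (f.ev i.s) := rfl
    have e3 : e.ev i.s = f.ev i.s * ((Ex.inv f).ev i.s * e.ev i.s) := by
      rw [e2, ← mul_assoc, Ring.mul_inverse_cancel _ huf, one_mul]
    have hu1 : IsUnit ((Ex.inv f).ev i.s * e.ev i.s) := hS K G i.s _ h1
    refine ⟨?_, ?_⟩
    · rw [e3]
      exact vc_mul hVf h1
    · have e4 : Ring.inverse (e.ev i.s) =
          Ring.inverse ((Ex.inv f).ev i.s * e.ev i.s) * (Ex.inv f).ev i.s := by
        have h5 : Ring.inverse (f.ev i.s * ((Ex.inv f).ev i.s * e.ev i.s)) =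
            Ring.inverse ((Ex.inv f).ev i.s * e.ev i.s) * Ring.inverse (f.ev i.s) := by
          obtain ⟨p, hp⟩ := huf
          obtain ⟨q, hq⟩ := hu1
          rw [← hq, ← hp, ← Units.val_mul, Ring.inverse_unit, Ring.inverse_unit,
            Ring.inverse_unit, mul_inv_rev, Units.val_mul]
        rw [← e3] at h5
        exact h5
      rw [e4]
      have h6 := h2.mul (hC i)
      rw [zero_add] at h6
      exact h6

theorem st_TRC (hS : ST_SPH.{u, v}) : ST_TRC.{u, v} := by
  intro K _ G _ s H hH x hx e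
  induction e with
  | mono c g =>
    intro _ hs v
    have hg : g ∈ H := hs g rfl
    have hgM : g ∈ s.M := hH hg
    have e1 : (Ex.mono c g).ev s v = c • s.trn K g hgM v := by
      change (c • s.tr K g) v = _
      unfold Sit.tr
      rw [dif_pos hgM]
      rfl
    have e2 : ∀ w, (Ex.mono c g).ev (s.cs H hH x hx) w =
        c • (s.cs H hH x hx).trn K g hg w := by
      intro w
      change (c • (s.cs H hH x hx).tr K g) w = _
      unfold Sit.tr
      rw [dif_pos (show g ∈ (s.cs H hH x hx).M from hg)]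
      rfl
    rw [e1, e2, map_smul]
    congr 1
    ext h
    change _ = (s.rs H hH x hx v).1 (g⁻¹ * h)
    by_cases hh : h ∈ H
    · rw [rs_apply s H hH x hx _ hh, rs_apply s H hH x hx _ (H.mul_mem (H.inv_mem hg) hh)]
      change v.1 (g⁻¹ * (h * x)) = _
      rw [mul_assoc]
    · rw [rs_off s H hH x hx _ hh, rs_off s H hH x hx]
      intro h1
      apply hh
      have h2 := H.mul_mem hg h1
      rw [mul_inv_cancel_left] at h2
      exact h2
  | add a b iha ihb =>
    intro had hs v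
    have h1 := iha had.1 (fun g hg => hs g (Or.inl hg)) v
    have h2 := ihb had.2 (fun g hg => hs g (Or.inr hg)) v
    change s.rs H hH x hx (a.ev s v + b.ev s v) =
      a.ev (s.cs H hH x hx) (s.rs H hH x hx v) + b.ev (s.cs H hH x hx) (s.rs H hH x hx v)
    rw [map_add, h1, h2]
  | mul a b iha ihb =>
    intro had hs v
    have h1 := iha had.1 (fun g hg => hs g (Or.inl hg)) (b.ev s v)
    have h2 := ihb had.2 (fun g hg => hs g (Or.inr hg)) v
    change s.rs H hH x hx (a.ev s (b.ev s v)) =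
      a.ev (s.cs H hH x hx) (b.ev (s.cs H hH x hx) (s.rs H hH x hx v))
    rw [h1, h2]
  | inv a iha =>
    intro had hs v
    obtain ⟨ha, hcons⟩ := had
    have hs' : ∀ g ∈ a.supp, g ∈ H := hs
    change s.rs H hH x hx (Ring.inverse (a.ev s) v) =
      Ring.inverse (a.ev (s.cs H hH x hx)) (s.rs H hH x hx v)
    rcases hcons with hZ | hN
    · rw [hZ s fun g hg => hH (hs' g hg), hZ (s.cs H hH x hx) hs', Ring.inverse_zero,
        Ring.inverse_zero, LinearMap.zero_apply, LinearMap.zero_apply, map_zero]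
    · have u1 : IsUnit (a.ev s) := hS K G s _ (hN s fun g hg => hH (hs' g hg))
      have u2 : IsUnit (a.ev (s.cs H hH x hx)) := hS K G _ _ (hN (s.cs H hH x hx) hs')
      have h1 := iha ha hs' (Ring.inverse (a.ev s) v)
      have h2 : a.ev s (Ring.inverse (a.ev s) v) = v := by
        rw [← Module.End.mul_apply, Ring.mul_inverse_cancel _ u1, Module.End.one_apply]
      rw [h2] at h1
      rw [h1, ← Module.End.mul_apply, Ring.inverse_mul_cancel _ u2, Module.End.one_apply]

end LCH97
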